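import Pool.Agent.Helper78.LK.Goals

/-!
# Project LK (MP_5a63b6_lc), packet BIC: braid words with four strands and their inverses
-/

set_option autoImplicit false

namespace Pool.Agent.Helper71.LK

open Pool.Agent.Helper50.KP Pool.Agent.Helper78.LK

theorem mir_mir (K : Kind) : mir (mir K) = K := by
  cases K with
  | cup => rfl
  | cap => rfl
  | X s => simp [mir]

theorem isX_mir (K : Kind) : isX (mir K) = isX K := by
  cases K <;> rfl

theorem br_cons {e : Ev} {w : Word} (h : Br4 (e :: w)) : Br4 w :=
  fun f hf => h f (List.mem_cons_of_mem _ hf)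

theorem br_app {w w' : Word} (h : Br4 w) (h' : Br4 w') : Br4 (w ++ w') := by
  intro e he
  rcases List.mem_append.1 he with he | he
  · exact h e he
  · exact h' e he

theorem br_bi {w : Word} (h : Br4 w) : Br4 (bi w) := by
  intro e he
  unfold bi at he
  rw [List.mem_reverse, List.mem_map] at he
  obtain ⟨f, hf, rfl⟩ := he
  obtain ⟨h1, h2⟩ := h f hf
  exact ⟨by rw [isX_mir]; exact h1, h2⟩

theorem br_one {e : Ev} (h1 : isX e.1 = true) (h2 : e.2 ≤ 2) : Br4 [e] := by
  intro f hf
  rw [List.mem_singleton] at hf
  subst hf
  exact ⟨h1, h2⟩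

theorem br_str (w : Word) : Br4 w → str w 4 = some 4 := by
  induction w with
  | nil => intro _; rfl
  | cons e w ih =>
    intro h
    obtain ⟨K, i⟩ := e
    obtain ⟨h1, h2⟩ := h (K, i) List.mem_cons_self
    cases K with
    | cup => simp [isX] at h1
    | cap => simp [isX] at h1
    | X s =>
      have h2' : i ≤ 2 := h2
      have h3 : str ((.X s, i) :: w) 4 = if i + 2 ≤ 4 then str w (4 - 2 + 2) else none := rfl
      rw [h3, if_pos (by omega)]
      exact ih (br_cons h)

theorem bi_app (w w' : Word) : bi (w ++ w') = bi w' ++ bi w := by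
  unfold bi
  rw [List.map_append, List.reverse_append]

theorem bi_bi (w : Word) : bi (bi w) = w := by
  unfold bi
  rw [List.map_reverse, List.reverse_reverse, List.map_map]
  conv_rhs => rw [← List.map_id w]
  refine List.map_congr_left fun e _ => ?_
  obtain ⟨K, i⟩ := e
  show (mir (mir K), i) = (K, i)
  rw [mir_mir]

theorem gBIC (hTQ : TQ) : BIC := by
  obtain ⟨-, q2, -, q4⟩ := hTQ
  have key : ∀ w : Word, Br4 w → Teq 4 (w ++ bi w) [] := by
    intro w
    induction w with
    | nil => intro _; exact Relation.ReflTransGen.refl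
    | cons e w ih =>
      intro h
      obtain ⟨K, i⟩ := e
      obtain ⟨h1, h2⟩ := h (K, i) List.mem_cons_self
      cases K with
      | cup => simp [isX] at h1
      | cap => simp [isX] at h1
      | X s =>
        have hw := br_cons h
        have e1 : Br4 [((.X s, i) : Ev)] := br_one rfl h2
        have e2 : Br4 [((.X (!s), i) : Ev)] := br_one rfl h2
        have h3 : ((.X s, i) :: w) ++ bi ((.X s, i) :: w) =
            [((.X s, i) : Ev)] ++ (w ++ bi w) ++ [((.X (!s), i) : Ev)] := by
          have : bi ((.X s, i) :: w) = bi w ++ [((.X (!s), i) : Ev)] := by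
            rw [show ((.X s, i) : Ev) :: w = [((.X s, i) : Ev)] ++ w from rfl, bi_app]
            rfl
          rw [this]
          simp
        rw [h3]
        have s1 := q2 4 4 [((.X s, i) : Ev)] [((.X (!s), i) : Ev)] (w ++ bi w) []
          (br_str _ e1)
          (by
            rw [br_str _ (br_app (br_app e1 (br_app hw (br_bi hw))) e2)]
            rfl) (ih hw)
        refine Relation.ReflTransGen.trans s1 ?_
        have s2 := q4 4 [] [] [((.X s, i) : Ev), ((.X (!s), i) : Ev)] []
          (Or.inr (Or.inr (Or.inl (Rd.r2 i s))))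
          (by
            have : Br4 ([] ++ [((.X s, i) : Ev), ((.X (!s), i) : Ev)] ++ []) := by
              intro f hf
              simp only [List.nil_append, List.append_nil, List.mem_cons,
                List.not_mem_nil, or_false] at hf
              rcases hf with rfl | rfl
              · exact ⟨rfl, h2⟩
              · exact ⟨rfl, h2⟩
            rw [br_str _ this]
            rfl) rfl
        exact s2
  refine ⟨fun w hw => ⟨br_str w hw, br_bi hw⟩, fun w w' => ⟨bi_app w w', bi_bi w⟩, ?_⟩
  intro w hw
  refine ⟨key w hw, ?_⟩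
  have := key (bi w) (br_bi hw)
  rwa [bi_bi] at this

end Pool.Agent.Helper71.LK
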